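import Pool.Agent.V11124.HC.Main

open Pool.Agent.V11124.HC

namespace Pool.Agent.Results.MP_613bd6_al.XCentral

/-- For every `N ≥ 1` and every composition `μ = (μ_1, …, μ_{N+1})` of `n` with positive parts,
`T_{γ_μ}` is invertible in `H(S_n)` (so that `Ring.inverse (Tgamma μ)` is its inverse) and
`X^μ_N` commutes with every element of `e_μ H(S_n) e_μ`. -/
theorem result : ∀ (N : ℕ) (μ : Fin (N + 1) → ℕ), 1 ≤ N → (∀ i, 0 < μ i) →
    IsUnit (Tgamma μ) ∧
    ∀ h : Hecke (tot μ), (∃ x : Hecke (tot μ), h = emu μ * x * emu μ) →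
      Xmu μ * h = h * Xmu μ := by
  intro N μ _ hμ
  obtain ⟨h1, h2⟩ := main μ hμ
  refine ⟨h1, ?_⟩
  rintro h ⟨x, rfl⟩
  exact h2 x

end Pool.Agent.Results.MP_613bd6_al.XCentral
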